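import Pool.Agent.Q276.CN.Stm

/-! The cycle of a reduced form gives a unit of norm one (job CYC of project CN, helper276). -/

set_option autoImplicit false

open scoped Real Topology
open Finset Filter

namespace Pool.Agent.Q154.CN

open Pool.Agent.Q276.CN

lemma Eqv_refl (u : ℤ × ℤ × ℤ) : Eqv u u := ⟨1, 0, 0, 1, by ring, by ring, by ring, by ring⟩

lemma Eqv_trans {u v x : ℤ × ℤ × ℤ} (h1 : Eqv u v) (h2 : Eqv v x) : Eqv u x := by
  obtain ⟨p, q, r, s, e0, e1, e2, e3⟩ := h1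
  obtain ⟨p', q', r', s', f0, f1, f2, f3⟩ := h2
  refine ⟨p * p' + q * r', p * q' + q * s', r * p' + s * r', r * q' + s * s', ?_, ?_, ?_, ?_⟩
  · calc (p * p' + q * r') * (r * q' + s * s') - (p * q' + q * s') * (r * p' + s * r')
        = (p * s - q * r) * (p' * s' - q' * r') := by ring
      _ = 1 := by rw [e0, f0]; ring
  · rw [f1, e1, e2, e3]; ring
  · rw [f2, e1, e2, e3]; ring
  · rw [f3, e1, e2, e3]; ring

/-- the comparison of the two forms of the reduction condition -/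
lemma redu {X Y b ξ : ℝ} (hX : 0 < X) (hY : 0 < Y) (hξ : 0 < ξ) (h : ξ ^ 2 = b ^ 2 + 4 * X * Y) :
    ((2 * X - ξ) ^ 2 < b ^ 2 ↔ X + Y < ξ) ∧ ((X - Y) ^ 2 < b ^ 2 ↔ X + Y < ξ) := by
  have e1 : (2 * X - ξ) ^ 2 - b ^ 2 = 4 * X * (X + Y - ξ) := by nlinarith
  have e2 : (X - Y) ^ 2 - b ^ 2 = (X + Y - ξ) * (X + Y + ξ) := by nlinarith
  constructor
  · constructor
    · intro h1
      by_contra hcon
      push Not at hcon
      have : 0 ≤ 4 * X * (X + Y - ξ) := mul_nonneg (by positivity) (by linarith)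
      linarith
    · intro h1
      have : 4 * X * (X + Y - ξ) < 0 := mul_neg_of_pos_of_neg (by positivity) (by linarith)
      linarith
  · constructor
    · intro h1
      by_contra hcon
      push Not at hcon
      have : 0 ≤ (X + Y - ξ) * (X + Y + ξ) := mul_nonneg (by linarith) (by positivity)
      linarith
    · intro h1
      have : (X + Y - ξ) * (X + Y + ξ) < 0 := mul_neg_of_neg_of_pos (by linarith) (by positivity)
      linarith

/-- the real data of a reduced form -/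
lemma data {D : ℕ} (hD : ¬ IsSquare D) {t : ℤ × ℤ × ℤ} (h : PF D t) (hR : Rd t) :
    0 < √(D : ℝ) ∧ (0 : ℝ) < t.2.1 ∧ (t.2.1 : ℝ) < √(D : ℝ) ∧ (t.1 : ℝ) ≠ 0 ∧ (t.2.2 : ℝ) ≠ 0 ∧
      √(D : ℝ) ^ 2 = (t.2.1 : ℝ) ^ 2 - 4 * t.1 * t.2.2 ∧
      √(D : ℝ) - t.2.1 < 2 * |(t.2.2 : ℝ)| ∧ 2 * |(t.2.2 : ℝ)| < √(D : ℝ) + t.2.1 := by
  obtain ⟨a, b, c⟩ := t
  obtain ⟨h1, -⟩ := h
  obtain ⟨h2, h3, h4⟩ := hR
  simp only at h1 h2 h3 h4 ⊢
  have hD0 : (0 : ℝ) ≤ D := Nat.cast_nonneg D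
  have hξ2 : √(D : ℝ) ^ 2 = D := Real.sq_sqrt hD0
  have hDr : (D : ℝ) = (b : ℝ) ^ 2 - 4 * a * c := by
    have : (D : ℤ) = b ^ 2 - 4 * a * c := h1.symm
    exact_mod_cast this
  have hb : (0 : ℝ) < b := by exact_mod_cast h2
  have hac : (a : ℝ) * c < 0 := by exact_mod_cast h3
  have ha0 : (a : ℝ) ≠ 0 := by
    rintro h
    rw [h] at hac
    simp at hac
  have hc0 : (c : ℝ) ≠ 0 := by
    rintro h
    rw [h] at hac
    simp at hac
  have hDpos : (0 : ℝ) < D := by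
    rw [hDr]
    nlinarith
  have hξ : 0 < √(D : ℝ) := Real.sqrt_pos.2 hDpos
  have hbξ : (b : ℝ) < √(D : ℝ) := by
    apply Real.lt_sqrt_of_sq_lt
    rw [hDr]
    nlinarith
  have hX : 0 < |(c : ℝ)| := abs_pos.2 hc0
  have hY : 0 < |(a : ℝ)| := abs_pos.2 ha0
  have hXY : |(c : ℝ)| * |(a : ℝ)| = -(a * c) := by
    rw [← abs_mul, mul_comm, abs_of_neg hac]
  have hrel : √(D : ℝ) ^ 2 = (b : ℝ) ^ 2 + 4 * |(c : ℝ)| * |(a : ℝ)| := by
    rw [hξ2, hDr]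
    linear_combination (-4) * hXY
  have hlt : (|(c : ℝ)| - |(a : ℝ)|) ^ 2 < (b : ℝ) ^ 2 := by
    have h5 : |(a : ℝ) + c| < b := by exact_mod_cast h4
    have h6 : ((a : ℝ) + c) ^ 2 < (b : ℝ) ^ 2 := by
      rw [← sq_abs ((a : ℝ) + c)]
      have := abs_nonneg ((a : ℝ) + c)
      nlinarith
    have h7 : (|(c : ℝ)| - |(a : ℝ)|) ^ 2 = ((a : ℝ) + c) ^ 2 := by
      have e1 : |(c : ℝ)| ^ 2 = (c : ℝ) ^ 2 := sq_abs _
      have e2 : |(a : ℝ)| ^ 2 = (a : ℝ) ^ 2 := sq_abs _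
      nlinarith
    rw [h7]
    exact h6
  have hred := redu hX hY hξ hrel
  have h8 : (2 * |(c : ℝ)| - √(D : ℝ)) ^ 2 < (b : ℝ) ^ 2 := hred.1.2 (hred.2.1 hlt)
  have h9 := abs_lt_of_sq_lt_sq h8 hb.le
  rw [abs_lt] at h9
  refine ⟨hξ, hb, hbξ, ha0, hc0, by rw [hξ2, hDr], by linarith [h9.1], by linarith [h9.2]⟩

/-- the quotient -/
noncomputable def mq (D : ℕ) (t : ℤ × ℤ × ℤ) : ℤ := ⌊((t.2.1 : ℝ) + √(D : ℝ)) / (2 * |(t.2.2 : ℝ)|)⌋

/-- the signed quotient -/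
noncomputable def nq (D : ℕ) (t : ℤ × ℤ × ℤ) : ℤ := if 0 < t.2.2 then mq D t else -mq D t

/-- the neighbour -/
noncomputable def rho (D : ℕ) (t : ℤ × ℤ × ℤ) : ℤ × ℤ × ℤ :=
  (t.2.2, -t.2.1 + 2 * t.2.2 * nq D t, t.1 - t.2.1 * nq D t + t.2.2 * nq D t ^ 2)

lemma rho_eqv (D : ℕ) (t : ℤ × ℤ × ℤ) : Eqv t (rho D t) :=
  ⟨0, -1, 1, nq D t, by ring, by simp only [rho]; ring, by simp only [rho]; ring,
    by simp only [rho]; ring⟩

lemma rho_PF {D : ℕ} {t : ℤ × ℤ × ℤ} (h : PF D t) : PF D (rho D t) := by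
  obtain ⟨a, b, c⟩ := t
  obtain ⟨h1, h2⟩ := h
  simp only at h1 h2
  set n := nq D (a, b, c) with hn
  have e : rho D (a, b, c) = (c, -b + 2 * c * n, a - b * n + c * n ^ 2) := rfl
  rw [e]
  refine ⟨?_, ?_⟩
  · show (-b + 2 * c * n) ^ 2 - 4 * c * (a - b * n + c * n ^ 2) = (D : ℤ)
    rw [← h1]
    ring
  · show Int.gcd (Int.gcd c (-b + 2 * c * n) : ℤ) (a - b * n + c * n ^ 2) = 1
    set d := Int.gcd (Int.gcd c (-b + 2 * c * n) : ℤ) (a - b * n + c * n ^ 2) with hd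
    have d0 : (d : ℤ) ∣ (Int.gcd c (-b + 2 * c * n) : ℤ) := Int.gcd_dvd_left ..
    have d1 : (d : ℤ) ∣ c := d0.trans (Int.gcd_dvd_left ..)
    have d2 : (d : ℤ) ∣ -b + 2 * c * n := d0.trans (Int.gcd_dvd_right ..)
    have d3 : (d : ℤ) ∣ a - b * n + c * n ^ 2 := Int.gcd_dvd_right ..
    have d4 : (d : ℤ) ∣ b := by
      have : b = c * (2 * n) - (-b + 2 * c * n) := by ring
      rw [this]
      exact dvd_sub (d1.mul_right _) d2
    have d5 : (d : ℤ) ∣ a := by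
      have : a = (a - b * n + c * n ^ 2) + b * n - c * n ^ 2 := by ring
      rw [this]
      exact dvd_sub (dvd_add d3 (d4.mul_right _)) (d1.mul_right _)
    have d6 : (d : ℤ) ∣ (Int.gcd (Int.gcd a b : ℤ) c : ℤ) :=
      Int.dvd_coe_gcd (Int.dvd_coe_gcd d5 d4) d1
    rw [h2] at d6
    have d7 : d ∣ 1 := by exact_mod_cast d6
    exact Nat.dvd_one.1 d7

lemma rho_Rd {D : ℕ} (hD : ¬ IsSquare D) {t : ℤ × ℤ × ℤ} (h : PF D t) (hR : Rd t) :
    Rd (rho D t) := by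
  obtain ⟨hξ, hb, hbξ, ha0, hc0, hsq, hl, hu⟩ := data hD h hR
  have hPF := rho_PF h
  have hirr : Irrational (√(D : ℝ)) := irrational_sqrt_natCast_iff.2 hD
  have hm1 : ((mq D t : ℤ) : ℝ) ≤ ((t.2.1 : ℝ) + √(D : ℝ)) / (2 * |(t.2.2 : ℝ)|) := Int.floor_le _
  have hm2 : ((t.2.1 : ℝ) + √(D : ℝ)) / (2 * |(t.2.2 : ℝ)|) < (mq D t : ℤ) + 1 := Int.lt_floor_add_one _
  have hX : 0 < |(t.2.2 : ℝ)| := abs_pos.2 hc0
  rw [le_div_iff₀ (by positivity)] at hm1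
  rw [div_lt_iff₀ (by positivity)] at hm2
  have hm3 : 1 ≤ mq D t := by
    apply Int.le_floor.2
    rw [le_div_iff₀ (by positivity)]
    push_cast
    linarith
  have hm3' : (1 : ℝ) ≤ (mq D t : ℤ) := by exact_mod_cast hm3
  have hcn : (t.2.2 : ℝ) * (nq D t : ℤ) = |(t.2.2 : ℝ)| * (mq D t : ℤ) := by
    unfold nq
    split_ifs with hc
    · rw [abs_of_pos (by exact_mod_cast hc)]
    · have hc' : (t.2.2 : ℝ) < 0 := by
        have h1 : t.2.2 ≤ 0 := not_lt.1 hc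
        have h2 : (t.2.2 : ℝ) ≤ 0 := by exact_mod_cast h1
        exact lt_of_le_of_ne h2 hc0
      rw [abs_of_neg hc']
      push_cast
      ring
  -- the middle coefficient
  have hb' : (((rho D t).2.1 : ℤ) : ℝ) = -t.2.1 + 2 * (|(t.2.2 : ℝ)| * (mq D t : ℤ)) := by
    rw [← hcn]
    simp only [rho]
    push_cast
    ring
  have k1 : (((rho D t).2.1 : ℤ) : ℝ) ≤ √(D : ℝ) := by
    rw [hb']
    nlinarith
  have k1' : (((rho D t).2.1 : ℤ) : ℝ) < √(D : ℝ) := by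
    apply lt_of_le_of_ne k1
    intro he
    exact hirr ⟨(rho D t).2.1, by rw [← he]; simp⟩
  have k2 : √(D : ℝ) - 2 * |(t.2.2 : ℝ)| < ((rho D t).2.1 : ℤ) := by
    rw [hb']
    nlinarith
  have k3 : 2 * |(t.2.2 : ℝ)| - √(D : ℝ) < ((rho D t).2.1 : ℤ) := by
    rw [hb']
    nlinarith
  have k4 : (0 : ℝ) < ((rho D t).2.1 : ℤ) := by linarith
  have hsq' : √(D : ℝ) ^ 2 = (((rho D t).2.1 : ℤ) : ℝ) ^ 2 - 4 * (rho D t).1 * (rho D t).2.2 := by
    rw [Real.sq_sqrt (Nat.cast_nonneg D)]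
    have : (D : ℤ) = (rho D t).2.1 ^ 2 - 4 * (rho D t).1 * (rho D t).2.2 := hPF.1.symm
    exact_mod_cast this
  have e1 : (rho D t).1 = t.2.2 := rfl
  rw [e1] at hsq'
  have hneg : (t.2.2 : ℝ) * ((rho D t).2.2 : ℤ) < 0 := by
    have : (((rho D t).2.1 : ℤ) : ℝ) ^ 2 < √(D : ℝ) ^ 2 := by nlinarith
    nlinarith
  have hc'0 : (((rho D t).2.2 : ℤ) : ℝ) ≠ 0 := by
    intro h0
    rw [h0] at hneg
    simp at hneg
  have hY : 0 < |(((rho D t).2.2 : ℤ) : ℝ)| := abs_pos.2 hc'0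
  have hXY : |(t.2.2 : ℝ)| * |(((rho D t).2.2 : ℤ) : ℝ)| = -((t.2.2 : ℝ) * ((rho D t).2.2 : ℤ)) := by
    rw [← abs_mul, abs_of_neg hneg]
  have hrel : √(D : ℝ) ^ 2 = (((rho D t).2.1 : ℤ) : ℝ) ^ 2 +
      4 * |(t.2.2 : ℝ)| * |(((rho D t).2.2 : ℤ) : ℝ)| := by
    rw [hsq', mul_assoc 4 |(t.2.2 : ℝ)|, hXY]
    ring
  have hred := redu hX hY hξ hrel
  have h1 : (2 * |(t.2.2 : ℝ)| - √(D : ℝ)) ^ 2 < (((rho D t).2.1 : ℤ) : ℝ) ^ 2 :=
    sq_lt_sq' (by linarith) (by linarith)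
  have h2 := hred.2.2 (hred.1.1 h1)
  have h3 : ((t.2.2 : ℝ) + ((rho D t).2.2 : ℤ)) ^ 2 < (((rho D t).2.1 : ℤ) : ℝ) ^ 2 := by
    have f1 : |(t.2.2 : ℝ)| ^ 2 = (t.2.2 : ℝ) ^ 2 := sq_abs _
    have f2 : |(((rho D t).2.2 : ℤ) : ℝ)| ^ 2 = (((rho D t).2.2 : ℤ) : ℝ) ^ 2 := sq_abs _
    nlinarith
  have h4 := abs_lt_of_sq_lt_sq h3 k4.le
  refine ⟨by exact_mod_cast k4, ?_, ?_⟩
  · rw [e1]
    exact_mod_cast hneg
  · rw [e1]
    exact_mod_cast h4

/-- the root -/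
noncomputable def rt (D : ℕ) (t : ℤ × ℤ × ℤ) : ℝ := (-(t.2.1 : ℝ) + √(D : ℝ)) / (2 * t.1)

/-- the multiplier -/
noncomputable def lm (D : ℕ) (t : ℤ × ℤ × ℤ) : ℝ := ((t.2.1 : ℝ) + √(D : ℝ)) / (2 * t.2.2)

lemma rt_lm {D : ℕ} (hD : ¬ IsSquare D) {t : ℤ × ℤ × ℤ} (h : PF D t) (hR : Rd t) :
    rt D t * lm D t = -1 := by
  obtain ⟨hξ, hb, hbξ, ha0, hc0, hsq, hl, hu⟩ := data hD h hR
  unfold rt lm
  rw [div_mul_div_comm, div_eq_iff (by positivity)]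
  nlinarith

lemma rt_rho {D : ℕ} (hD : ¬ IsSquare D) {t : ℤ × ℤ × ℤ} (h : PF D t) (hR : Rd t) :
    rt D (rho D t) + nq D t = lm D t := by
  obtain ⟨hξ, hb, hbξ, ha0, hc0, hsq, hl, hu⟩ := data hD h hR
  unfold rt lm
  simp only [rho]
  push_cast
  field_simp
  ring

lemma lm_log {D : ℕ} (hD : ¬ IsSquare D) {t : ℤ × ℤ × ℤ} (h : PF D t) (hR : Rd t) :
    lm D t ≠ 0 ∧ Real.log (lm D t) = wt D t ∧ 0 < wt D t := by
  obtain ⟨hξ, hb, hbξ, ha0, hc0, hsq, hl, hu⟩ := data hD h hR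
  have hX : 0 < |(t.2.2 : ℝ)| := abs_pos.2 hc0
  have h1 : |lm D t| = ((t.2.1 : ℝ) + √(D : ℝ)) / (2 * |(t.2.2 : ℝ)|) := by
    unfold lm
    rw [abs_div, abs_mul, abs_of_pos (show (0 : ℝ) < t.2.1 + √(D : ℝ) by positivity)]
    norm_num
  refine ⟨?_, ?_, ?_⟩
  · unfold lm
    have : (0 : ℝ) < t.2.1 + √(D : ℝ) := by positivity
    exact div_ne_zero this.ne' (mul_ne_zero two_ne_zero hc0)
  · rw [← Real.log_abs, h1]
    rfl
  · unfold wt
    apply Real.log_pos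
    rw [lt_div_iff₀ (by positivity)]
    linarith

lemma iter_red {D : ℕ} (hD : ¬ IsSquare D) {t : ℤ × ℤ × ℤ} (h : PF D t) (hR : Rd t) (k : ℕ) :
    PF D ((rho D)^[k] t) ∧ Rd ((rho D)^[k] t) ∧ Eqv t ((rho D)^[k] t) := by
  induction k with
  | zero => exact ⟨h, hR, Eqv_refl t⟩
  | succ k ih =>
    rw [Function.iterate_succ_apply']
    exact ⟨rho_PF ih.1, rho_Rd hD ih.1 ih.2.1, Eqv_trans ih.2.2 (rho_eqv D _)⟩

lemma iter_mat {D : ℕ} (hD : ¬ IsSquare D) {t : ℤ × ℤ × ℤ} (h : PF D t) (hR : Rd t) (k : ℕ) :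
    ∃ p q z w : ℤ, p * w - q * z = 1 ∧
      (p : ℝ) * rt D ((rho D)^[k] t) + q = (∏ j ∈ range k, lm D ((rho D)^[j] t)) * rt D t ∧
      (z : ℝ) * rt D ((rho D)^[k] t) + w = ∏ j ∈ range k, lm D ((rho D)^[j] t) := by
  induction k with
  | zero => exact ⟨1, 0, 0, 1, by ring, by simp, by simp⟩
  | succ k ih =>
    obtain ⟨p, q, z, w, e0, e1, e2⟩ := ih
    obtain ⟨g1, g2, -⟩ := iter_red hD h hR k
    have f1 := rt_lm hD g1 g2
    have f2 := rt_rho hD g1 g2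
    rw [prod_range_succ, Function.iterate_succ_apply']
    set L := ∏ j ∈ range k, lm D ((rho D)^[j] t)
    set u := (rho D)^[k] t
    refine ⟨q, -p + q * nq D u, w, -z + w * nq D u, by linear_combination e0, ?_, ?_⟩
    · push_cast
      linear_combination (q : ℝ) * f2 - (p : ℝ) * f1 + lm D u * e1
    · push_cast
      linear_combination (w : ℝ) * f2 - (z : ℝ) * f1 + lm D u * e2

lemma irr_coef {D : ℕ} (hD : ¬ IsSquare D) (A B : ℤ) (h : (A : ℝ) + B * √(D : ℝ) = 0) :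
    A = 0 ∧ B = 0 := by
  have hirr : Irrational (√(D : ℝ)) := irrational_sqrt_natCast_iff.2 hD
  have hB : B = 0 := by
    by_contra hB
    have hB' : (B : ℝ) ≠ 0 := by exact_mod_cast hB
    apply hirr
    refine ⟨-(A : ℚ) / B, ?_⟩
    push_cast
    rw [div_eq_iff hB']
    linarith
  subst hB
  refine ⟨?_, rfl⟩
  have : (A : ℝ) = 0 := by simpa using h
  exact_mod_cast this

theorem cyc (hM : StmtMEM) (hW : StmtWNN) : StmtCYC := by
  classical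
  intro D hD t hPF hRd
  -- a periodic point
  have hmem : ∀ k, (rho D)^[k] t ∈ redF D := fun k =>
    (hM D _).2 ⟨(iter_red hD hPF hRd k).1, (iter_red hD hPF hRd k).2.1⟩
  obtain ⟨i, j, hij, heq⟩ := Finite.exists_ne_map_eq_of_infinite
    (fun k : ℕ => (⟨(rho D)^[k] t, hmem k⟩ : (redF D : Set (ℤ × ℤ × ℤ))))
  have heq' : (rho D)^[i] t = (rho D)^[j] t := congrArg Subtype.val heq
  obtain ⟨i0, d, hd, hper⟩ : ∃ i0 d : ℕ, 0 < d ∧ (rho D)^[d] ((rho D)^[i0] t) = (rho D)^[i0] t := by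
    rcases Nat.lt_or_gt_of_ne hij with hlt | hlt
    · refine ⟨i, j - i, by omega, ?_⟩
      rw [← Function.iterate_add_apply, show j - i + i = j by omega, heq']
    · refine ⟨j, i - j, by omega, ?_⟩
      rw [← Function.iterate_add_apply, show i - j + j = i by omega, heq']
  obtain ⟨g1, g2, g3⟩ := iter_red hD hPF hRd i0
  set t1 := (rho D)^[i0] t with ht1
  set k := Function.minimalPeriod (rho D) t1 with hk
  have hkpos : 0 < k := Function.IsPeriodicPt.minimalPeriod_pos hd hper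
  have hkper : (rho D)^[k] t1 = t1 := Function.iterate_minimalPeriod
  obtain ⟨p, q, z, w, e0, e1, e2⟩ := iter_mat hD g1 g2 k
  rw [hkper] at e1 e2
  set L := ∏ j ∈ range k, lm D ((rho D)^[j] t1) with hL
  obtain ⟨hξ, hb, hbξ, ha0, hc0, hsq, hl, hu⟩ := data hD g1 g2
  -- the unit
  have hrt : 2 * (t1.1 : ℝ) * rt D t1 = -t1.2.1 + √(D : ℝ) := by
    unfold rt
    field_simp
  have hquad : (z : ℝ) * rt D t1 ^ 2 + (w - p) * rt D t1 - q = 0 := by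
    have h1 : (p : ℝ) * rt D t1 + q = (z * rt D t1 + w) * rt D t1 := by rw [e1, e2]
    linarith
  have hcoef : ((t1.1 * z * (-t1.1) * 0 + z * (t1.2.1 ^ 2 + D) - 2 * t1.1 * t1.2.1 * (w - p)
      - 4 * t1.1 ^ 2 * q : ℤ) : ℝ) + ((-(2 * t1.2.1 * z) + 2 * t1.1 * (w - p) : ℤ) : ℝ) * √(D : ℝ)
      = 0 := by
    have h1 : 4 * (t1.1 : ℝ) ^ 2 * ((z : ℝ) * rt D t1 ^ 2 + (w - p) * rt D t1 - q) = 0 := by
      rw [hquad, mul_zero]
    have h2 : 4 * (t1.1 : ℝ) ^ 2 * ((z : ℝ) * rt D t1 ^ 2 + (w - p) * rt D t1 - q) =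
        z * (2 * (t1.1 : ℝ) * rt D t1) ^ 2 + 2 * t1.1 * (w - p) * (2 * (t1.1 : ℝ) * rt D t1)
          - 4 * (t1.1 : ℝ) ^ 2 * q := by ring
    rw [h2, hrt] at h1
    have h3 : √(D : ℝ) ^ 2 = D := Real.sq_sqrt (Nat.cast_nonneg D)
    push_cast
    linear_combination h1 - (z : ℝ) * h3
  obtain ⟨c1, c2⟩ := irr_coef hD _ _ hcoef
  have hDz : t1.2.1 ^ 2 - 4 * t1.1 * t1.2.2 = (D : ℤ) := g1.1
  have ha0z : t1.1 ≠ 0 := by exact_mod_cast ha0
  have c3 : t1.1 * (w - p) = t1.2.1 * z := by linarith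
  have c4 : t1.1 * q = -(t1.2.2 * z) := by
    have h1 : 4 * t1.1 * (t1.1 * q + t1.2.2 * z) = 0 := by
      have h2 : z * (t1.2.1 ^ 2 + D) - 2 * t1.2.1 * (t1.1 * (w - p)) - 4 * t1.1 ^ 2 * q = 0 := by
        linarith
      rw [c3, ← hDz] at h2
      linarith
    rcases mul_eq_zero.1 h1 with h2 | h2
    · exfalso
      apply ha0z
      linarith
    · linarith
  obtain ⟨U, hU⟩ : t1.1 ∣ z := by
    have h1 := g1.2
    have h2 : IsCoprime ((Int.gcd t1.1 t1.2.1 : ℕ) : ℤ) t1.2.2 := Int.isCoprime_iff_gcd_eq_one.2 h1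
    obtain ⟨x, y, hxy⟩ := h2
    have h3 := Int.gcd_eq_gcd_ab t1.1 t1.2.1
    rw [h3] at hxy
    refine ⟨x * Int.gcdA t1.1 t1.2.1 * z + x * Int.gcdB t1.1 t1.2.1 * (w - p) - y * q, ?_⟩
    linear_combination (-z) * hxy - x * Int.gcdB t1.1 t1.2.1 * c3 + y * c4
  have c5 : w - p = t1.2.1 * U := by
    apply mul_left_cancel₀ ha0z
    rw [c3, hU]
    ring
  have c6 : q = -(t1.2.2 * U) := by
    apply mul_left_cancel₀ ha0z
    rw [c4, hU]
    ring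
  have hTU : (p + w) ^ 2 - (D : ℤ) * U ^ 2 = 4 := by
    rw [← hDz]
    have e0' : p * w - q * z = 1 := e0
    rw [c6, hU] at e0'
    have c5' : w = p + t1.2.1 * U := by linarith
    subst c5'
    linear_combination 4 * e0'
  have hLval : L = ((p + w : ℤ) + (U : ℝ) * √(D : ℝ)) / 2 := by
    have hz : (z : ℝ) = t1.1 * U := by
      rw [hU]
      push_cast
      ring
    have hwp : (w : ℝ) - p = t1.2.1 * U := by exact_mod_cast c5
    rw [← e2, hz]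
    push_cast
    linear_combination (U : ℝ) / 2 * hrt + 1 / 2 * hwp
  -- the logarithm
  have hlog : Real.log L = ∑ j ∈ range k, wt D ((rho D)^[j] t1) := by
    rw [hL, Real.log_prod]
    · apply Finset.sum_congr rfl
      intro j _
      obtain ⟨r1, r2, -⟩ := iter_red hD g1 g2 j
      exact (lm_log hD r1 r2).2.1
    · intro j _
      obtain ⟨r1, r2, -⟩ := iter_red hD g1 g2 j
      exact (lm_log hD r1 r2).1
  have hpos : 0 < Real.log L := by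
    rw [hlog]
    apply Finset.sum_pos
    · intro j _
      obtain ⟨r1, r2, -⟩ := iter_red hD g1 g2 j
      exact (lm_log hD r1 r2).2.2
    · exact ⟨0, Finset.mem_range.2 hkpos⟩
  have habs : 1 < |L| := by
    rw [← Real.log_abs] at hpos
    exact (Real.log_pos_iff (abs_nonneg L)).1 hpos
  have hTUr : ((p + w : ℤ) : ℝ) ^ 2 - ((U : ℝ) * √(D : ℝ)) ^ 2 = 4 := by
    rw [mul_pow, Real.sq_sqrt (Nat.cast_nonneg D)]
    have : (((p + w) ^ 2 - (D : ℤ) * U ^ 2 : ℤ) : ℝ) = 4 := by rw [hTU]; norm_num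
    push_cast at this ⊢
    linarith
  have hsum : ∑ j ∈ range k, wt D ((rho D)^[j] t1) ≤
      ∑ t' ∈ (redF D).filter (fun t' => Eqv t t'), wt D t' := by
    have hinj : Set.InjOn (fun j => (rho D)^[j] t1) (range k : Set ℕ) := by
      intro x hx y hy hxy
      exact Function.iterate_injOn_Iio_minimalPeriod (by simpa using hx) (by simpa using hy) hxy
    rw [← Finset.sum_image (f := fun t' => wt D t') hinj]
    apply Finset.sum_le_sum_of_subset_of_nonneg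
    · intro t' ht'
      obtain ⟨j, -, rfl⟩ := Finset.mem_image.1 ht'
      obtain ⟨r1, r2, r3⟩ := iter_red hD g1 g2 j
      exact Finset.mem_filter.2 ⟨(hM D _).2 ⟨r1, r2⟩, Eqv_trans g3 r3⟩
    · intro t' ht' _
      obtain ⟨r1, r2⟩ := (hM D t').1 (Finset.mem_filter.1 ht').1
      exact hW D t' r1 r2
  set T : ℤ := p + w with hT
  have hT0 : T ≠ 0 := by
    rintro h0
    rw [h0] at hTUr
    have : 0 ≤ ((U : ℝ) * √(D : ℝ)) ^ 2 := sq_nonneg _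
    norm_num at hTUr
    linarith
  have hU0 : U ≠ 0 := by
    rintro h0
    rw [h0] at hTUr hLval
    simp only [Int.cast_zero, zero_mul, ne_eq, OfNat.ofNat_ne_zero, not_false_eq_true, zero_pow,
      sub_zero, add_zero] at hTUr hLval
    have h1 : L ^ 2 = 1 := by
      rw [hLval, div_pow, hTUr]
      norm_num
    have h2 : |L| ^ 2 = 1 := by rw [sq_abs, h1]
    nlinarith
  refine ⟨|T|, |U|, abs_pos.2 hT0, abs_pos.2 hU0, ?_, ?_⟩
  · rw [sq_abs, sq_abs]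
    exact hTU
  · refine le_trans ?_ hsum
    rw [← hlog, ← Real.log_abs L]
    have hUξ : |(U : ℝ) * √(D : ℝ)| = |(U : ℝ)| * √(D : ℝ) := by
      rw [abs_mul, abs_of_pos hξ]
    have hTpos : 0 < |(T : ℝ)| := abs_pos.2 (by exact_mod_cast hT0)
    have hUpos : 0 < |(U : ℝ)| * √(D : ℝ) :=
      mul_pos (abs_pos.2 (by exact_mod_cast hU0)) hξ
    push_cast
    apply Real.log_le_log (by positivity)
    rw [hLval, abs_div, abs_two]
    apply div_le_div_of_nonneg_right _ (by norm_num)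
    rw [← hUξ]
    by_contra hcon
    push Not at hcon
    -- opposite signs
    have hneg : (T : ℝ) * ((U : ℝ) * √(D : ℝ)) < 0 := by
      by_contra hnn
      push Not at hnn
      have h1 : |(T : ℝ) + (U : ℝ) * √(D : ℝ)| = |(T : ℝ)| + |(U : ℝ) * √(D : ℝ)| := by
        rcases mul_nonneg_iff.1 hnn with ⟨h2, h3⟩ | ⟨h2, h3⟩
        · rw [abs_of_nonneg h2, abs_of_nonneg h3, abs_of_nonneg (by linarith)]
        · rw [abs_of_nonpos h2, abs_of_nonpos h3, abs_of_nonpos (by linarith)]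
          ring
      linarith
    have h4 : L ^ 2 ≤ 1 := by
      rw [hLval]
      have h5 : (((T : ℤ) : ℝ) + (U : ℝ) * √(D : ℝ)) ^ 2 ≤ 4 := by
        set X := (T : ℝ)
        set Y := (U : ℝ) * √(D : ℝ)
        nlinarith [sq_nonneg Y]
      rw [div_pow]
      linarith
    have h6 : |L| ^ 2 ≤ 1 := by rw [sq_abs]; exact h4
    nlinarith

end Pool.Agent.Q154.CN
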