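import Pool.Agent.Q276.CN.Stm

/-! The sum of all the weights (job SUM of project CN, helper276). -/

set_option autoImplicit false

open scoped Real Topology
open Finset Filter

namespace Pool.Agent.Q154.CN

open Pool.Agent.Q276.CN

lemma invsqrt (s : ℕ) : ∑ k ∈ range (s + 1), 1 / √(k : ℝ) ≤ 2 * √(s : ℝ) := by
  induction s with
  | zero => simp
  | succ s ih =>
    rw [sum_range_succ]
    have h0 : (0 : ℝ) ≤ s := Nat.cast_nonneg s
    have h1 : 0 < √((s + 1 : ℕ) : ℝ) := Real.sqrt_pos.2 (by positivity)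
    have h2 : √((s + 1 : ℕ) : ℝ) ^ 2 = s + 1 := by
      rw [Real.sq_sqrt (by positivity)]
      push_cast
      ring
    have h3 : √(s : ℝ) ^ 2 = s := Real.sq_sqrt h0
    have h4 : 1 / √((s + 1 : ℕ) : ℝ) ≤ 2 * √((s + 1 : ℕ) : ℝ) - 2 * √(s : ℝ) := by
      rw [div_le_iff₀ h1]
      nlinarith [sq_nonneg (√((s + 1 : ℕ) : ℝ) - √(s : ℝ))]
    linarith

/-- size of the coefficients -/
lemma bounds {D : ℕ} {t : ℤ × ℤ × ℤ} (h : PF D t) (hR : Rd t) :
    t.1 ^ 2 ≤ D ∧ t.2.1 ^ 2 ≤ D ∧ t.2.2 ^ 2 ≤ D ∧ t.2.2 ≠ 0 ∧ 0 < t.2.1 ∧ t.1 * t.2.2 < 0 := by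
  obtain ⟨a, b, c⟩ := t
  obtain ⟨h1, -⟩ := h
  obtain ⟨h2, h3, h4⟩ := hR
  simp only at h1 h2 h3 h4 ⊢
  rw [abs_lt] at h4
  have h5 : (a + c) ^ 2 < b ^ 2 := by nlinarith [h4.1, h4.2]
  refine ⟨by nlinarith [sq_nonneg c], by nlinarith, by nlinarith [sq_nonneg a], ?_, h2, h3⟩
  rintro rfl
  simp at h3

lemma wt_le {D N : ℕ} (hDN : D < N) {t : ℤ × ℤ × ℤ} (h : PF D t) (hR : Rd t) :
    wt D t ≤ 2 * √(√(N : ℝ) / (t.2.2.natAbs : ℝ)) := by
  obtain ⟨-, hb, -, hc0, hbpos, -⟩ := bounds h hR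
  have hc : (0 : ℝ) < |(t.2.2 : ℝ)| := abs_pos.2 (by exact_mod_cast hc0)
  have hcn : (t.2.2.natAbs : ℝ) = |(t.2.2 : ℝ)| := by
    rw [Nat.cast_natAbs]
    push_cast
    rfl
  have hbD : (t.2.1 : ℝ) ≤ √(D : ℝ) := by
    apply Real.le_sqrt_of_sq_le
    exact_mod_cast hb
  have hDN' : √(D : ℝ) ≤ √(N : ℝ) := Real.sqrt_le_sqrt (by exact_mod_cast hDN.le)
  have hbr : (0 : ℝ) < (t.2.1 : ℝ) := by exact_mod_cast hbpos
  have hx : ((t.2.1 : ℝ) + √(D : ℝ)) / (2 * |(t.2.2 : ℝ)|) ≤ √(N : ℝ) / |(t.2.2 : ℝ)| := by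
    rw [div_le_div_iff₀ (by positivity) hc]
    nlinarith
  have hpos : 0 < ((t.2.1 : ℝ) + √(D : ℝ)) / (2 * |(t.2.2 : ℝ)|) := by
    have : 0 ≤ √(D : ℝ) := Real.sqrt_nonneg _
    positivity
  rw [hcn]
  set x : ℝ := √(N : ℝ) / |(t.2.2 : ℝ)| with hxdef
  have hx0 : 0 < x := lt_of_lt_of_le hpos hx
  have h1 : wt D t ≤ Real.log x := Real.log_le_log hpos hx
  have h2 : Real.log (√x) = Real.log x / 2 := Real.log_sqrt hx0.le
  have h3 : Real.log (√x) ≤ √x - 1 := Real.log_le_sub_one_of_pos (Real.sqrt_pos.2 hx0)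
  linarith

/-- the injection -/
def enc (x : (_ : ℕ) × (ℤ × ℤ × ℤ)) : ℤ × ℕ × ℕ := (x.2.1, x.2.2.1.toNat, x.2.2.2.natAbs)

theorem sum (hM : StmtMEM) : StmtSUM := by
  classical
  refine ⟨24, by norm_num, ?_⟩
  intro N hN
  set s := Nat.sqrt N with hs
  have hsN : (s : ℝ) ≤ √(N : ℝ) := by
    apply Real.le_sqrt_of_sq_le
    have : s ^ 2 ≤ N := Nat.sqrt_le' N
    exact_mod_cast this
  have hmem : ∀ x ∈ (range N).sigma redF, x.1 < N ∧ PF x.1 x.2 ∧ Rd x.2 := by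
    intro x hx
    rw [Finset.mem_sigma] at hx
    exact ⟨Finset.mem_range.1 hx.1, (hM x.1 x.2).1 hx.2⟩
  have hinj : Set.InjOn enc ((range N).sigma redF : Set ((_ : ℕ) × (ℤ × ℤ × ℤ))) := by
    intro x hx y hy hxy
    obtain ⟨-, hx1, hx2⟩ := hmem x hx
    obtain ⟨-, hy1, hy2⟩ := hmem y hy
    have bx := bounds hx1 hx2
    have by' := bounds hy1 hy2
    obtain ⟨D, a, b, c⟩ := x
    obtain ⟨D', a', b', c'⟩ := y
    simp only [enc, Prod.mk.injEq] at hxy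
    obtain ⟨e1, e2, e3⟩ := hxy
    simp only at bx by' hx1 hy1
    obtain ⟨-, -, -, -, hb, hac⟩ := bx
    obtain ⟨-, -, -, -, hb', hac'⟩ := by'
    subst e1
    have e4 : b = b' := by omega
    subst e4
    have e5 : c = c' := by
      rcases Int.natAbs_eq_natAbs_iff.1 e3 with h | h
      · exact h
      · exfalso
        subst h
        nlinarith
    subst e5
    have e6 : (D : ℤ) = D' := by rw [← hx1.1, ← hy1.1]
    have e7 : D = D' := by exact_mod_cast e6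
    subst e7
    rfl
  have hsub : ((range N).sigma redF).image enc ⊆
      (Icc (-(s : ℤ)) s) ×ˢ (range (s + 1)) ×ˢ (range (s + 1)) := by
    intro u hu
    obtain ⟨x, hx, rfl⟩ := Finset.mem_image.1 hu
    obtain ⟨hD, hx1, hx2⟩ := hmem x hx
    obtain ⟨b1, b2, b3, -, b5, -⟩ := bounds hx1 hx2
    have key : ∀ z : ℤ, z ^ 2 ≤ (x.1 : ℤ) → z.natAbs ≤ s := by
      intro z hz
      apply Nat.le_sqrt'.2
      have h1 : ((z.natAbs ^ 2 : ℕ) : ℤ) ≤ (N : ℤ) := by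
        push_cast
        rw [sq_abs]
        have : (x.1 : ℤ) < N := by exact_mod_cast hD
        linarith
      exact_mod_cast h1
    have k1 := key _ b1
    have k2 := key _ b2
    have k3 := key _ b3
    simp only [enc, Finset.mem_product, Finset.mem_Icc, Finset.mem_range]
    refine ⟨⟨by omega, by omega⟩, by omega, by omega⟩
  have hcalc : ∑ D ∈ Finset.range N, ∑ t ∈ redF D, wt D t ≤
      ((2 * (s : ℝ) + 1) * ((s : ℝ) + 1)) * ∑ k ∈ range (s + 1), 2 * √(√(N : ℝ) / (k : ℝ)) := by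
    calc ∑ D ∈ Finset.range N, ∑ t ∈ redF D, wt D t
        = ∑ x ∈ (range N).sigma redF, wt x.1 x.2 := by rw [Finset.sum_sigma]
      _ ≤ ∑ x ∈ (range N).sigma redF, 2 * √(√(N : ℝ) / ((enc x).2.2 : ℝ)) := by
          apply Finset.sum_le_sum
          intro x hx
          obtain ⟨hD, hx1, hx2⟩ := hmem x hx
          exact wt_le hD hx1 hx2
      _ = ∑ u ∈ ((range N).sigma redF).image enc, 2 * √(√(N : ℝ) / (u.2.2 : ℝ)) := by
          rw [Finset.sum_image hinj]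
      _ ≤ ∑ u ∈ (Icc (-(s : ℤ)) s) ×ˢ (range (s + 1)) ×ˢ (range (s + 1)),
            2 * √(√(N : ℝ) / (u.2.2 : ℝ)) :=
          Finset.sum_le_sum_of_subset_of_nonneg hsub fun _ _ _ => by positivity
      _ = _ := by
          rw [Finset.sum_product]
          simp only [Finset.sum_product, Finset.sum_const, Int.card_Icc, Finset.card_range,
            nsmul_eq_mul]
          have e : (((s : ℤ) + 1 - -(s : ℤ)).toNat : ℝ) = 2 * (s : ℝ) + 1 := by
            have : ((s : ℤ) + 1 - -(s : ℤ)).toNat = 2 * s + 1 := by omega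
            rw [this]
            push_cast
            ring
          rw [e]
          push_cast
          ring
  have hsum : ∑ k ∈ range (s + 1), 2 * √(√(N : ℝ) / (k : ℝ)) ≤ 4 * √(N : ℝ) := by
    have e1 : ∀ k ∈ range (s + 1), 2 * √(√(N : ℝ) / (k : ℝ)) =
        2 * √(√(N : ℝ)) * (1 / √(k : ℝ)) := by
      intro k _
      rw [Real.sqrt_div (Real.sqrt_nonneg _)]
      ring
    rw [Finset.sum_congr rfl e1, ← Finset.mul_sum]
    have h1 := invsqrt s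
    have h2 : √(s : ℝ) ≤ √(√(N : ℝ)) := Real.sqrt_le_sqrt hsN
    have h3 : √(√(N : ℝ)) ^ 2 = √(N : ℝ) := Real.sq_sqrt (Real.sqrt_nonneg _)
    have h4 : 0 ≤ √(√(N : ℝ)) := Real.sqrt_nonneg _
    calc 2 * √(√(N : ℝ)) * ∑ k ∈ range (s + 1), 1 / √(k : ℝ)
        ≤ 2 * √(√(N : ℝ)) * (2 * √(√(N : ℝ))) := by
          apply mul_le_mul_of_nonneg_left _ (by positivity)
          linarith
      _ = 4 * √(√(N : ℝ)) ^ 2 := by ring
      _ = _ := by rw [h3]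
  have hN1 : (1 : ℝ) ≤ √(N : ℝ) := by
    apply Real.le_sqrt_of_sq_le
    have : (1 : ℝ) ≤ N := by exact_mod_cast hN
    linarith
  have h32 : (N : ℝ) ^ (3 / 2 : ℝ) = √(N : ℝ) ^ 3 := by
    rw [Real.sqrt_eq_rpow, ← Real.rpow_natCast, ← Real.rpow_mul (Nat.cast_nonneg N)]
    norm_num
  rw [h32]
  have hs0 : (0 : ℝ) ≤ s := Nat.cast_nonneg s
  calc ∑ D ∈ Finset.range N, ∑ t ∈ redF D, wt D t
      ≤ ((2 * (s : ℝ) + 1) * ((s : ℝ) + 1)) * ∑ k ∈ range (s + 1), 2 * √(√(N : ℝ) / (k : ℝ)) :=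
        hcalc
    _ ≤ ((3 * √(N : ℝ)) * (2 * √(N : ℝ))) * (4 * √(N : ℝ)) := by
        apply mul_le_mul _ hsum (Finset.sum_nonneg fun _ _ => by positivity) (by positivity)
        apply mul_le_mul _ _ (by positivity) (by positivity)
        · linarith
        · linarith
    _ = 24 * √(N : ℝ) ^ 3 := by ring

end Pool.Agent.Q154.CN
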